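import Pool.Agent.H29.DPC.S2

/-!
# DPC, module FLD: from semilinear maps to (i) and (ii)
-/

set_option autoImplicit false

namespace Pool.DPC

open Polynomial Complex

namespace FLDaux

/-- a power of a character acts on the values as the automorphism does -/
theorem pow_val {k : IntermediateField ℚ ℂ} {n f : ℕ} {psi : DirichletCharacter ℂ f}
    (hn : 0 < n) (hpsi : psi ^ n = 1) {g : cyc k n ≃ₐ[k] cyc k n} {s : ℕ} (hg : Pow g s)
    (hK : valueField k psi ≤ cyc k n) (u : (ZMod f)ˣ) :
    ((g ⟨psi u, hK (IntermediateField.subset_adjoin _ _ (Set.mem_range_self _))⟩ : cyc k n) : ℂ) =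
      (psi ^ s) (u : ZMod f) := by
  have h1 : (⟨psi u, hK (IntermediateField.subset_adjoin _ _ (Set.mem_range_self _))⟩ :
      cyc k n) ^ n = 1 := by
    apply Subtype.ext
    have := congrArg (fun c : DirichletCharacter ℂ f => c (u : ZMod f)) hpsi
    simp only [MulChar.pow_apply' _ hn.ne', MulChar.one_apply_coe] at this
    simpa using this
  rw [hg.2 _ h1, MulChar.pow_apply_coe]
  rfl

end FLDaux

/-- FLD -/
theorem t_FLD (hGAL : GALStmt) : FLDStmt := by
  intro k n f V psi hn hpsi hV
  obtain ⟨hgal, hfin, hpow, hval, hext⟩ := hGAL k n hn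
  have hK : valueField k psi ≤ cyc k n := hval f psi hpsi
  -- a projection
  obtain ⟨π, hπ⟩ : ∃ π : ℂ →ₗ[cyc k n] cyc k n, π 1 = 1 := by
    have hinj : LinearMap.ker (Algebra.linearMap (cyc k n) ℂ) = ⊥ :=
      LinearMap.ker_eq_bot.2 (FaithfulSMul.algebraMap_injective (cyc k n) ℂ)
    obtain ⟨π, hπ⟩ := LinearMap.exists_leftInverse_of_injective (Algebra.linearMap (cyc k n) ℂ) hinj
    refine ⟨π, ?_⟩
    have := congrArg (fun F : cyc k n →ₗ[cyc k n] cyc k n => F 1) hπ
    simpa using this
  have h1 : Pow (AlgEquiv.refl : cyc k n ≃ₐ[k] cyc k n) 1 :=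
    ⟨Nat.coprime_one_left n, fun z _ => by simp⟩
  have hE : ((π (V psi) : cyc k n) : ℂ) = V psi := by
    have := hV AlgEquiv.refl 1 h1 π
    rw [hπ] at this
    simpa using this
  have hmem : V psi ∈ cyc k n := hE ▸ (π (V psi)).2
  have hgV : ∀ (g : cyc k n ≃ₐ[k] cyc k n) (s : ℕ), Pow g s →
      ((g ⟨V psi, hmem⟩ : cyc k n) : ℂ) = V (psi ^ s) := by
    intro g s hg
    have h2 := hV g s hg π
    rw [hπ, map_one] at h2
    have h3 : π (V psi) = ⟨V psi, hmem⟩ := Subtype.ext hE
    rw [h3] at h2
    rw [h2]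
    simp
  -- in the value field
  have hin : V psi ∈ valueField k psi := by
    have h4 : (⟨V psi, hmem⟩ : cyc k n) ∈ IntermediateField.restrict hK := by
      rw [← IsGalois.fixedField_fixingSubgroup (IntermediateField.restrict hK)]
      rw [IntermediateField.mem_fixedField_iff]
      intro g hg
      rw [IntermediateField.mem_fixingSubgroup_iff] at hg
      obtain ⟨s, hs⟩ := hpow g
      have h5 : psi ^ s = psi := by
        refine MulChar.ext fun u => ?_
        rw [← FLDaux.pow_val hn hpsi hs hK u]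
        have h6 := hg ⟨psi u, hK (IntermediateField.subset_adjoin _ _ (Set.mem_range_self _))⟩
          ((IntermediateField.mem_restrict hK _).2
            (IntermediateField.subset_adjoin _ _ (Set.mem_range_self _)))
        exact congrArg Subtype.val h6
      apply Subtype.ext
      rw [hgV g s hs, h5]
    exact (IntermediateField.mem_restrict hK _).1 h4
  refine ⟨hin, ?_⟩
  intro g psi' hpsi'
  obtain ⟨g', hg'⟩ := hext _ hK g
  obtain ⟨s, hs⟩ := hpow g'
  have h7 : psi' = psi ^ s := by
    refine MulChar.ext fun u => ?_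
    rw [hpsi', ← FLDaux.pow_val hn hpsi hs hK u]
    exact (hg' _ _ _).symm
  rw [h7, ← hgV g' s hs]
  exact (hg' _ _ _).symm

end Pool.DPC
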