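import Pool.Agent.H85.DPC.FLD

/-!
# DPC, module BAK: from (i) and (ii) to the traces
-/

set_option autoImplicit false

namespace Pool.DPC

open Polynomial Complex

/-- BAK -/
theorem t_BAK (hGAL : GALStmt) : BAKStmt := by
  classical
  intro k n f V Y hn hf hY hV
  have : NeZero f := ⟨hf⟩
  obtain ⟨hgal, hfin, hpow, hval, hext⟩ := hGAL k n hn
  have hK : ∀ psi ∈ Y, valueField k psi ≤ cyc k n := fun psi h => hval f psi (hY psi h)
  have hmem : ∀ psi ∈ Y, V psi ∈ cyc k n := fun psi h => by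
    obtain ⟨h1, -⟩ := hV psi h
    exact hK psi h h1
  have hgV : ∀ (g : cyc k n ≃ₐ[k] cyc k n) (s : ℕ), Pow g s → ∀ psi (h : psi ∈ Y),
      ((g ⟨V psi, hmem psi h⟩ : cyc k n) : ℂ) = V (psi ^ s) := by
    intro g s hg psi h
    obtain ⟨h1, h2⟩ := hV psi h
    have h3 := h2 (((cyc k n).val.comp (g : cyc k n →ₐ[k] cyc k n)).comp
      (IntermediateField.inclusion (hK psi h))) (psi ^ s) ?_
    · exact h3
    · intro a
      by_cases ha : IsUnit a
      · obtain ⟨u, rfl⟩ := ha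
        exact (FLDaux.pow_val hn (hY psi h) hg (hK psi h) u).symm
      · have h4 : psi a = 0 := MulChar.map_nonunit psi ha
        have h5 : (psi ^ s) a = 0 := MulChar.map_nonunit (psi ^ s) ha
        rw [h5]
        have h6 : (⟨psi a, IntermediateField.subset_adjoin _ _ (Set.mem_range_self a)⟩ :
            valueField k psi) = 0 := Subtype.ext h4
        rw [h6, map_zero]
  have hfinY : (Y : Set (DirichletCharacter ℂ f)).Finite := Set.toFinite _
  rw [finsum_mem_eq_finite_toFinset_sum _ hfinY]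
  have hT : ∀ psi, psi ∈ hfinY.toFinset ↔ psi ∈ Y := fun psi => hfinY.mem_toFinset
  obtain ⟨v, hv⟩ : ∃ v : DirichletCharacter ℂ f → cyc k n, ∀ psi (h : psi ∈ Y),
      v psi = ⟨V psi, hmem psi h⟩ :=
    ⟨fun psi => if h : psi ∈ Y then ⟨V psi, hmem psi h⟩ else 0, fun psi h => by simp [h]⟩
  have hsum : ((∑ psi ∈ hfinY.toFinset, v psi : cyc k n) : ℂ) = ∑ psi ∈ hfinY.toFinset, V psi := by
    push_cast
    refine Finset.sum_congr rfl fun psi hpsi => ?_
    rw [hv psi ((hT psi).1 hpsi)]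
  have hfix : ∀ g : cyc k n ≃ₐ[k] cyc k n, g (∑ psi ∈ hfinY.toFinset, v psi) =
      ∑ psi ∈ hfinY.toFinset, v psi := by
    intro g
    obtain ⟨s, hs⟩ := hpow g
    rw [map_sum]
    refine Finset.sum_nbij (fun psi => psi ^ s) ?_ ?_ ?_ ?_
    · intro psi hpsi
      exact (hT _).2 (Y.pow_mem ((hT psi).1 hpsi) s)
    · intro a ha b hb hab
      have h1 : s ^ (n.totient - 1) * s ≡ 1 [MOD n] := by
        rw [← pow_succ, Nat.sub_add_cancel (Nat.totient_pos.2 hn)]
        exact Nat.ModEq.pow_totient hs.1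
      have h2 : ∀ c ∈ Y, (c ^ s) ^ (s ^ (n.totient - 1)) = c := fun c hc => by
        rw [← pow_mul, mul_comm, pow_eq_pow_of_modEq h1 (hY c hc), pow_one]
      rw [← h2 a ((hT a).1 ha), ← h2 b ((hT b).1 hb)]
      exact congrArg (fun c => c ^ (s ^ (n.totient - 1))) hab
    · intro b hb
      have h1 : s ^ (n.totient - 1) * s ≡ 1 [MOD n] := by
        rw [← pow_succ, Nat.sub_add_cancel (Nat.totient_pos.2 hn)]
        exact Nat.ModEq.pow_totient hs.1
      refine ⟨b ^ (s ^ (n.totient - 1)), (hT _).2 (Y.pow_mem ((hT b).1 hb) _), ?_⟩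
      change (b ^ (s ^ (n.totient - 1))) ^ s = b
      rw [← pow_mul, pow_eq_pow_of_modEq h1 (hY b ((hT b).1 hb)), pow_one]
    · intro psi hpsi
      have h1 := (hT psi).1 hpsi
      apply Subtype.ext
      rw [hv psi h1, hgV g s hs psi h1, hv (psi ^ s) (Y.pow_mem h1 s)]
  obtain ⟨x, hx⟩ := (IsGalois.mem_range_algebraMap_iff_fixed _).2 hfix
  rw [← hsum, ← hx]
  exact x.2

end Pool.DPC
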